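import Pool.Agent.W872.MX.Stm

/-! Part PEEL of project MX (helper872): greedy embedding of the peeled vertices. -/

set_option autoImplicit false

namespace W166.MX.PEEL

open Finset W872.MX

theorem emb_insert {V W : Type} [DecidableEq V] [DecidableEq W] (G : MG V) (S S1 : Finset V)
    (R : SimpleGraph W) (S' : Finset W) (a : W) (v0 : V) (ha : a ∉ S') (hv : v0 ∈ S)
    (hS : S1 ⊆ S) (hv1 : v0 ∉ S1)
    (hr : ∀ s ∈ S', R.Adj a s → ∀ u ∈ S1, G.red.Adj v0 u)
    (hb : ∀ s ∈ S', ¬ R.Adj a s → ∀ u ∈ S1, G.blue.Adj v0 u)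
    (h : EmbIn G S1 R S') : EmbIn G S R (insert a S') := by
  obtain ⟨f, hinj, hmem, hadj⟩ := h
  refine ⟨Function.update f a v0, ?_, ?_, ?_⟩
  · intro x hx y hy hxy
    simp only [coe_insert, Set.mem_insert_iff, mem_coe] at hx hy
    by_cases hxa : x = a
    · by_cases hya : y = a
      · rw [hxa, hya]
      · exfalso
        have hy' : y ∈ S' := hy.resolve_left hya
        rw [hxa, Function.update_self, Function.update_of_ne hya] at hxy
        exact hv1 (hxy ▸ hmem y hy')
    · have hx' : x ∈ S' := hx.resolve_left hxa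
      by_cases hya : y = a
      · exfalso
        rw [hya, Function.update_self, Function.update_of_ne hxa] at hxy
        exact hv1 (hxy ▸ hmem x hx')
      · have hy' : y ∈ S' := hy.resolve_left hya
        rw [Function.update_of_ne hxa, Function.update_of_ne hya] at hxy
        exact hinj (mem_coe.2 hx') (mem_coe.2 hy') hxy
  · intro x hx
    rcases mem_insert.1 hx with hxa | hx'
    · rw [hxa, Function.update_self]; exact hv
    · have hxa : x ≠ a := fun e => ha (e ▸ hx')
      rw [Function.update_of_ne hxa]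
      exact hS (hmem x hx')
  · intro x hx y hy
    rcases mem_insert.1 hx with hxa | hx'
    · rcases mem_insert.1 hy with hya | hy'
      · subst hxa; subst hya
        exact ⟨fun h => (h.ne rfl).elim, fun h => (h.ne rfl).elim⟩
      · have hya : y ≠ a := fun e => ha (e ▸ hy')
        rw [hxa, Function.update_self, Function.update_of_ne hya]
        refine ⟨fun h => hr y hy' h _ (hmem y hy'), fun h => ?_⟩
        rw [SimpleGraph.compl_adj] at h
        exact hb y hy' h.2 _ (hmem y hy')
    · have hxa : x ≠ a := fun e => ha (e ▸ hx')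
      rcases mem_insert.1 hy with hya | hy'
      · rw [hya, Function.update_self, Function.update_of_ne hxa]
        refine ⟨fun h => (hr x hx' h.symm _ (hmem x hx')).symm, fun h => ?_⟩
        rw [SimpleGraph.compl_adj] at h
        exact (hb x hx' (fun h' => h.2 h'.symm) _ (hmem x hx')).symm
      · have hya : y ≠ a := fun e => ha (e ▸ hy')
        rw [Function.update_of_ne hxa, Function.update_of_ne hya]
        exact hadj x hx' y hy'

theorem card_step {V : Type} [DecidableEq V] (S S₀ : Finset V) (hS : S ⊆ S₀) (v : V) (hv : v ∈ S)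
    (q : V → Prop) [DecidablePred q] :
    (S.card : ℝ) ≤ ((S.filter (fun u => u ≠ v ∧ q u)).card : ℝ) + 1 +
      ((S₀.filter (fun u => u ≠ v ∧ ¬ q u)).card : ℝ) := by
  have h1 : S ⊆ (S.filter (fun u => u ≠ v ∧ q u)) ∪ ({v} ∪
      (S₀.filter (fun u => u ≠ v ∧ ¬ q u))) := by
    intro u hu
    simp only [mem_union, mem_filter, mem_singleton]
    by_cases huv : u = v
    · right; left; exact huv
    · by_cases hq : q u
      · left; exact ⟨hu, huv, hq⟩
      · right; right; exact ⟨hS hu, huv, hq⟩
  have h2 := card_le_card h1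
  have h3 := card_union_le (S.filter (fun u => u ≠ v ∧ q u)) ({v} ∪
      (S₀.filter (fun u => u ≠ v ∧ ¬ q u)))
  have h4 := card_union_le ({v} : Finset V) (S₀.filter (fun u => u ≠ v ∧ ¬ q u))
  rw [card_singleton] at h4
  have h5 : S.card ≤ (S.filter (fun u => u ≠ v ∧ q u)).card + 1 +
      (S₀.filter (fun u => u ≠ v ∧ ¬ q u)).card := by omega
  exact_mod_cast h5

theorem main : PartPEEL := by
  intro n G S₀ x y B W _ _ R T hx hy hB hbase S' k l hP
  have hx0 : ∀ v ∈ S₀, 0 ≤ x v := fun v hv => by
    have h1 := hx v hv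
    have h2 : (0 : ℝ) ≤ (nonblue G S₀ v : ℝ) := Nat.cast_nonneg _
    linarith
  have hy0 : ∀ v ∈ S₀, 0 ≤ y v := fun v hv => by
    have h1 := hy v hv
    have h2 : (0 : ℝ) ≤ (nonred G S₀ v : ℝ) := Nat.cast_nonneg _
    linarith
  induction hP with
  | base =>
    intro S hS hne h
    obtain ⟨v, hv⟩ := hne
    have := h v hv
    push_cast at this
    exact hbase S hS ⟨v, hv⟩ (by linarith)
  | blue S' k l a ha hna _ ih =>
    intro S hS hne h
    classical
    obtain ⟨v0, hv0, hmin⟩ := exists_min_image S x hne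
    set S1 := S.filter (fun u => u ≠ v0 ∧ G.blue.Adj v0 u) with hS1
    have hcard : (S.card : ℝ) ≤ (S1.card : ℝ) + x v0 := by
      have h1 := card_step S S₀ hS v0 hv0 (fun u => G.blue.Adj v0 u)
      have h2 := hx v0 (hS hv0)
      have h3 : (nonblue G S₀ v0 : ℝ) =
          ((S₀.filter (fun u => u ≠ v0 ∧ ¬ G.blue.Adj v0 u)).card : ℝ) := by
        unfold nonblue
        congr!
      rw [h3] at h2
      have h4 : (S1.card : ℝ) = ((S.filter (fun u => u ≠ v0 ∧ G.blue.Adj v0 u)).card : ℝ) := rfl
      linarith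
    have hS1S : S1 ⊆ S := filter_subset _ _
    have hkl : ∀ v ∈ S, 0 ≤ (k : ℝ) * x v ∧ 0 ≤ (l : ℝ) * y v := fun v hv =>
      ⟨mul_nonneg (Nat.cast_nonneg _) (hx0 v (hS hv)), mul_nonneg (Nat.cast_nonneg _) (hy0 v (hS hv))⟩
    have hne1 : S1.Nonempty := by
      have h1 := h v0 hv0
      have h2 := hkl v0 hv0
      push_cast at h1
      have h3 : (0 : ℝ) < S1.card := by nlinarith [h2.1, h2.2]
      exact card_pos.1 (by exact_mod_cast h3)
    have hemb := ih S1 (hS1S.trans hS) hne1 (by
      intro v hv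
      have h1 := h v (hS1S hv)
      have h2 := hmin v (hS1S hv)
      push_cast at h1
      nlinarith)
    refine emb_insert G S S1 R S' a v0 ha hv0 hS1S ?_ ?_ ?_ hemb
    · intro hmem
      exact (mem_filter.1 hmem).2.1 rfl
    · intro s hs hadj
      exact absurd hadj (hna s hs)
    · intro s hs _ u hu
      exact (mem_filter.1 hu).2.2
  | red S' k l a ha hna _ ih =>
    intro S hS hne h
    classical
    obtain ⟨v0, hv0, hmin⟩ := exists_min_image S y hne
    set S1 := S.filter (fun u => u ≠ v0 ∧ G.red.Adj v0 u) with hS1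
    have hcard : (S.card : ℝ) ≤ (S1.card : ℝ) + y v0 := by
      have h1 := card_step S S₀ hS v0 hv0 (fun u => G.red.Adj v0 u)
      have h2 := hy v0 (hS hv0)
      have h3 : (nonred G S₀ v0 : ℝ) =
          ((S₀.filter (fun u => u ≠ v0 ∧ ¬ G.red.Adj v0 u)).card : ℝ) := by
        unfold nonred
        congr!
      rw [h3] at h2
      have h4 : (S1.card : ℝ) = ((S.filter (fun u => u ≠ v0 ∧ G.red.Adj v0 u)).card : ℝ) := rfl
      linarith
    have hS1S : S1 ⊆ S := filter_subset _ _
    have hkl : ∀ v ∈ S, 0 ≤ (k : ℝ) * x v ∧ 0 ≤ (l : ℝ) * y v := fun v hv =>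
      ⟨mul_nonneg (Nat.cast_nonneg _) (hx0 v (hS hv)), mul_nonneg (Nat.cast_nonneg _) (hy0 v (hS hv))⟩
    have hne1 : S1.Nonempty := by
      have h1 := h v0 hv0
      have h2 := hkl v0 hv0
      push_cast at h1
      have h3 : (0 : ℝ) < S1.card := by nlinarith [h2.1, h2.2]
      exact card_pos.1 (by exact_mod_cast h3)
    have hemb := ih S1 (hS1S.trans hS) hne1 (by
      intro v hv
      have h1 := h v (hS1S hv)
      have h2 := hmin v (hS1S hv)
      push_cast at h1
      nlinarith)
    refine emb_insert G S S1 R S' a v0 ha hv0 hS1S ?_ ?_ ?_ hemb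
    · intro hmem
      exact (mem_filter.1 hmem).2.1 rfl
    · intro s hs _ u hu
      exact (mem_filter.1 hu).2.2
    · intro s hs hadj
      exact absurd (hna s hs) hadj

end W166.MX.PEEL
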